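import Pool.Agent.Helper94.EP.Defs

/-!
Project EP (MP_b8862a_ag): the extreme level is not of type `B`.
-/

set_option linter.unusedSectionVars false
set_option linter.unusedVariables false

namespace EP

open PF PG TR

variable {E : Type*} [NormedAddCommGroup E] [InnerProductSpace ℝ E]

/-- The frame of a level of type `B`. -/
structure FB (Φ : Finset E) (r : ℕ) (e : ℕ → E) (l : ℝ) : Prop where
  two : 2 ≤ r
  lpos : 0 < l
  orth : ∀ i < r, ∀ j < r, inner ℝ (e i) (e j) = if i = j then l else (0 : ℝ)
  root : ∀ i < r, e i ∈ Φ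
  dif : ∀ i < r, ∀ j < r, i ≠ j → e i - e j ∈ Φ

variable {Φ X : Finset E} {r : ℕ} {e : ℕ → E} {l : ℝ}

namespace FB

variable (F : FB Φ r e l)
include F

theorem self {i : ℕ} (hi : i < r) : (inner ℝ (e i) (e i) : ℝ) = l := by
  rw [F.orth i hi i hi, if_pos rfl]

theorem off {i j : ℕ} (hi : i < r) (hj : j < r) (h : i ≠ j) : (inner ℝ (e i) (e j) : ℝ) = 0 := by
  rw [F.orth i hi j hj, if_neg h]

theorem co_e {i : ℕ} (hi : i < r) (x : E) : co (e i) x * l = 2 * inner ℝ x (e i) := by
  unfold co
  rw [F.self hi]
  have := F.lpos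
  field_simp

theorem self_dif {i j : ℕ} (hi : i < r) (hj : j < r) (h : i ≠ j) :
    (inner ℝ (e i - e j) (e i - e j) : ℝ) = 2 * l := by
  rw [inner_sub_left, inner_sub_right, inner_sub_right, F.self hi, F.self hj, F.off hi hj h, F.off hj hi h.symm]
  ring

theorem co_dif {i j : ℕ} (hi : i < r) (hj : j < r) (h : i ≠ j) (x : E) :
    co (e i - e j) x * l = inner ℝ x (e i) - inner ℝ x (e j) := by
  unfold co
  rw [F.self_dif hi hj h, inner_sub_right]
  have := F.lpos
  field_simp

/-- moving in the strings of the frame -/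
theorem shift (hS : Sat Φ X) {x : E} (hx : x ∈ X) (k : ℕ → ℤ)
    (hk : ∀ i < r, (0 ≤ k i ∧ (k i : ℝ) * l ≤ 2 * inner ℝ x (e i)) ∨ (k i ≤ 0 ∧ 2 * inner ℝ x (e i) ≤ (k i : ℝ) * l)) :
    ∀ m ≤ r, x - ∑ i ∈ Finset.range m, (k i : ℝ) • e i ∈ X := by
  intro m
  have hl := F.lpos
  induction m with
  | zero =>
    intro _
    simpa using hx
  | succ m ih =>
    intro hm
    have h1 := ih (by omega)
    set x' := x - ∑ i ∈ Finset.range m, (k i : ℝ) • e i with hx'
    have h2 : (inner ℝ x' (e m) : ℝ) = inner ℝ x (e m) := by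
      rw [hx', inner_sub_left, sum_inner, Finset.sum_eq_zero, sub_zero]
      intro i hi
      have hi' := Finset.mem_range.1 hi
      rw [inner_smul_left, F.off (by omega) (by omega) (by omega), mul_zero]
    rw [Finset.sum_range_succ, ← sub_sub, ← hx']
    have h3 : co (e m) x' * l = 2 * inner ℝ x (e m) := by rw [F.co_e (by omega), h2]
    rcases hk m (by omega) with ⟨h4, h5⟩ | ⟨h4, h5⟩
    · obtain ⟨j, hj⟩ := Int.eq_ofNat_of_zero_le h4
      have h6 := hS.str (e m) (F.root m (by omega)) x' h1 j (by
        rw [hj] at h5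
        push_cast at h5
        nlinarith)
      rw [hj]
      push_cast
      exact h6
    · obtain ⟨j, hj⟩ := Int.eq_ofNat_of_zero_le (a := -k m) (by omega)
      have hj' : (k m : ℝ) = -(j : ℝ) := by
        have : k m = -(j : ℤ) := by omega
        rw [this]
        push_cast
        rfl
      have h6 := hS.str (e m) (F.root m (by omega)) (-x') (hS.neg _ h1) j (by
        rw [co_neg_right]
        rw [hj'] at h5
        nlinarith)
      have h7 := hS.neg _ h6
      rw [hj']
      have e1 : x' - -(j : ℝ) • e m = -(-x' - (j : ℝ) • e m) := by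
        rw [neg_smul]
        abel
      rw [e1]
      exact h7

theorem inner_sum {i : ℕ} (hi : i < r) (k : ℕ → ℝ) :
    (inner ℝ (∑ j ∈ Finset.range r, k j • e j) (e i) : ℝ) = k i * l := by
  rw [sum_inner, Finset.sum_eq_single i]
  · rw [inner_smul_left, F.self hi]
    simp
  · intro j hj hji
    rw [inner_smul_left, F.off (Finset.mem_range.1 hj) hi hji, mul_zero]
  · intro h
    exact absurd (Finset.mem_range.2 hi) h

/-- all the weights with two coordinates `± 1` -/
theorem pairs (hR : RS Φ) (hS : Sat Φ X) {x : E} (hx : x ∈ X) (m : ℕ → ℤ) (hm : ∀ i < r, (inner ℝ x (e i) : ℝ) = m i * l)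
    (h0 : m 0 ≠ 0) (h1 : m 1 ≠ 0) :
    ∃ u : E, (∀ i < r, (inner ℝ u (e i) : ℝ) = 0) ∧ ∀ i < r, ∀ j < r, i ≠ j → ∀ s t : ℝ, (s = 1 ∨ s = -1) →
      (t = 1 ∨ t = -1) → u + s • e i + t • e j ∈ X := by
  have hl := F.lpos
  have h2r := F.two
  set u : E := x - ∑ i ∈ Finset.range r, (m i : ℝ) • e i with hu
  have hue : ∀ i < r, (inner ℝ u (e i) : ℝ) = 0 := by
    intro i hi
    rw [hu, inner_sub_left, F.inner_sum hi (fun i => (m i : ℝ)), hm i hi, sub_self]
  -- the first one
  have hP0 : u + e 0 + e 1 ∈ X := by
    have h2 := F.shift hS hx (fun i => if i < 2 then m i - 1 else m i) (by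
      intro i hi
      rw [hm i hi]
      by_cases hi2 : i < 2
      · have hne : m i ≠ 0 := by
          have : i = 0 ∨ i = 1 := by omega
          rcases this with rfl | rfl
          · exact h0
          · exact h1
        simp only [hi2, if_true]
        push_cast
        rcases lt_or_gt_of_ne hne with h | h
        · right
          have h' : (m i : ℝ) ≤ -1 := by exact_mod_cast (by omega : m i ≤ -1)
          exact ⟨by omega, by nlinarith⟩
        · left
          have h' : (1 : ℝ) ≤ m i := by exact_mod_cast (by omega : 1 ≤ m i)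
          exact ⟨by omega, by nlinarith⟩
      · simp only [hi2, if_false]
        rcases le_total (m i) 0 with h | h
        · right
          have h' : (m i : ℝ) ≤ 0 := by exact_mod_cast h
          exact ⟨h, by nlinarith⟩
        · left
          have h' : (0 : ℝ) ≤ m i := by exact_mod_cast h
          exact ⟨h, by nlinarith⟩) r le_rfl
    have h3 : ∑ i ∈ Finset.range r, (((if i < 2 then m i - 1 else m i : ℤ)) : ℝ) • e i =
        ∑ i ∈ Finset.range r, (m i : ℝ) • e i - (e 0 + e 1) := by
      have h4 : ∀ i ∈ Finset.range r, (((if i < 2 then m i - 1 else m i : ℤ)) : ℝ) • e i =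
          (m i : ℝ) • e i - (if i < 2 then e i else 0) := by
        intro i _
        by_cases hi2 : i < 2
        · simp only [hi2, if_true]
          push_cast
          rw [sub_smul, one_smul]
        · simp only [hi2, if_false, sub_zero]
      rw [Finset.sum_congr rfl h4, Finset.sum_sub_distrib]
      congr 1
      rw [← Finset.sum_filter]
      have h5 : (Finset.range r).filter (fun i => i < 2) = {0, 1} := by
        ext i
        simp only [Finset.mem_filter, Finset.mem_range, Finset.mem_insert, Finset.mem_singleton]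
        omega
      rw [h5, Finset.sum_pair (by norm_num)]
    have h6 : u + e 0 + e 1 =
        x - ∑ i ∈ Finset.range r, (((fun i => if i < 2 then m i - 1 else m i) i : ℤ) : ℝ) • e i := by
      rw [h3, hu]
      abel
    rw [h6]
    exact h2
  -- moving
  have hmv : ∀ i < r, ∀ j < r, ∀ k < r, i ≠ j → k ≠ i → k ≠ j → u + e i + e j ∈ X → u + e k + e j ∈ X := by
    intro i hi j hj k hk hij hki hkj h
    have h2 : co (e i - e k) (u + e i + e j) = 1 := by
      have h3 := F.co_dif hi hk (Ne.symm hki) (u + e i + e j)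
      rw [inner_add_left, inner_add_left, inner_add_left, inner_add_left, hue i hi, hue k hk, F.self hi, F.off hj hi hij.symm,
        F.off hi hk (Ne.symm hki), F.off hj hk (Ne.symm hkj)] at h3
      have h4 : (co (e i - e k) (u + e i + e j) - 1) * l = 0 := by linarith
      rcases mul_eq_zero.1 h4 with h5 | h5
      · linarith
      · exact absurd h5 hl.ne'
    have h5 := sat_refl hR hS (F.dif i hi k hk (Ne.symm hki)) h
    rw [h2, one_smul] at h5
    have h6 : u + e k + e j = u + e i + e j - (e i - e k) := by abel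
    rw [h6]
    exact h5
  have hsw : ∀ i j, u + e i + e j ∈ X → u + e j + e i ∈ X := by
    intro i j h
    have h6 : u + e j + e i = u + e i + e j := by abel
    rw [h6]
    exact h
  have hall0 : ∀ j < r, j ≠ 0 → u + e 0 + e j ∈ X := by
    intro j hj hj0
    by_cases hj1 : j = 1
    · rw [hj1]
      exact hP0
    · exact hsw _ _ (hmv 1 (by omega) 0 (by omega) j hj (by omega) hj1 hj0 (hsw _ _ hP0))
  have hall : ∀ i < r, ∀ j < r, i ≠ j → u + e i + e j ∈ X := by
    intro i hi j hj hij
    by_cases hj0 : j = 0
    · subst hj0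
      exact hsw _ _ (hall0 i hi hij)
    · by_cases hi0 : i = 0
      · subst hi0
        exact hall0 j hj hj0
      · exact hmv 0 (by omega) j hj i hi (Ne.symm hj0) hi0 hij (hall0 j hj hj0)
  -- signs
  have hsg : ∀ i < r, ∀ j < r, i ≠ j → ∀ s : ℝ, (s = 1 ∨ s = -1) → u + s • e i + e j ∈ X := by
    intro i hi j hj hij s hs
    have h := hall i hi j hj hij
    rcases hs with rfl | rfl
    · rwa [one_smul]
    · have h2 : co (e i) (u + e i + e j) = 2 := by
        have h3 := F.co_e hi (u + e i + e j)
        rw [inner_add_left, inner_add_left, hue i hi, F.self hi, F.off hj hi hij.symm] at h3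
        have h4 : (co (e i) (u + e i + e j) - 2) * l = 0 := by linarith
        rcases mul_eq_zero.1 h4 with h5 | h5
        · linarith
        · exact absurd h5 hl.ne'
      have h5 := sat_refl hR hS (F.root i hi) h
      rw [h2] at h5
      have h6 : u + (-1 : ℝ) • e i + e j = u + e i + e j - (2 : ℝ) • e i := by
        rw [two_smul, neg_smul, one_smul]
        abel
      rw [h6]
      exact h5
  refine ⟨u, hue, ?_⟩
  intro i hi j hj hij s t hs ht
  have h := hsg i hi j hj hij s hs
  rcases ht with rfl | rfl
  · rwa [one_smul]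
  · have h2 : co (e j) (u + s • e i + e j) = 2 := by
      have h3 := F.co_e hj (u + s • e i + e j)
      rw [inner_add_left, inner_add_left, hue j hj, inner_smul_left, F.self hj, F.off hi hj hij] at h3
      have h4 : (co (e j) (u + s • e i + e j) - 2) * l = 0 := by
        simp only [mul_zero] at h3
        linarith
      rcases mul_eq_zero.1 h4 with h5 | h5
      · linarith
      · exact absurd h5 hl.ne'
    have h5 := sat_refl hR hS (F.root j hj) h
    rw [h2] at h5
    have h6 : u + s • e i + (-1 : ℝ) • e j = u + s • e i + e j - (2 : ℝ) • e j := by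
      rw [two_smul, neg_smul, one_smul]
      abel
    rw [h6]
    exact h5

/-- the coordinates of a weight with two nonzero coordinates -/
theorem coord {u : E} (hu : ∀ i < r, (inner ℝ u (e i) : ℝ) = 0) {i j k : ℕ} (hi : i < r) (hj : j < r) (hk : k < r)
    (s t : ℝ) : (inner ℝ (u + s • e i + t • e j) (e k) : ℝ) =
      ((if k = i then s else 0) + (if k = j then t else 0)) * l := by
  rw [inner_add_left, inner_add_left, inner_smul_left, inner_smul_left, hu k hk, F.orth i hi k hk, F.orth j hj k hk]
  simp only [conj_trivial, eq_comm (a := i), eq_comm (a := j)]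
  split_ifs <;> ring

/-- counting the weights with two nonzero coordinates -/
theorem card_pairs {u : E} (hu : ∀ i < r, (inner ℝ u (e i) : ℝ) = 0)
    (hP : ∀ i < r, ∀ j < r, i ≠ j → ∀ s t : ℝ, (s = 1 ∨ s = -1) → (t = 1 ∨ t = -1) → u + s • e i + t • e j ∈ X)
    {A : Finset E} (hA : A ⊆ X)
    (hA1 : ∀ x ∈ A, ∀ i < r, ∀ j < r, i ≠ j → (inner ℝ x (e i) : ℝ) * inner ℝ x (e j) = 0) :
    A.card + 2 * (r * (r - 1)) ≤ X.card := by
  classical
  have hl := F.lpos
  have h1ne : (1 : ℝ) ≠ -1 := by norm_num
  set D : Finset ((_ : ℕ) × ℕ × (ℝ × ℝ)) :=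
    (Finset.range r).sigma fun j => (Finset.range j) ×ˢ ((({1, -1} : Finset ℝ)) ×ˢ (({1, -1} : Finset ℝ))) with hD
  have hDc : D.card = 2 * (r * (r - 1)) := by
    rw [hD, Finset.card_sigma]
    have h1 : ∀ j ∈ Finset.range r,
        ((Finset.range j) ×ˢ ((({1, -1} : Finset ℝ)) ×ˢ (({1, -1} : Finset ℝ)))).card = j * 4 := by
      intro j _
      rw [Finset.card_product, Finset.card_product, Finset.card_range, Finset.card_pair h1ne]
    rw [Finset.sum_congr rfl h1, ← Finset.sum_mul]
    have h2 := Finset.sum_range_id_mul_two r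
    omega
  have hmem : ∀ q : (_ : ℕ) × ℕ × (ℝ × ℝ), q ∈ D →
      q.1 < r ∧ q.2.1 < q.1 ∧ (q.2.2.1 = 1 ∨ q.2.2.1 = -1) ∧ (q.2.2.2 = 1 ∨ q.2.2.2 = -1) := by
    intro q hq
    simpa [hD, Finset.mem_sigma, Finset.mem_product, and_assoc] using hq
  set f : ((_ : ℕ) × ℕ × (ℝ × ℝ)) → E := fun q => u + q.2.2.1 • e q.2.1 + q.2.2.2 • e q.1 with hf
  have hne : ∀ s : ℝ, (s = 1 ∨ s = -1) → s ≠ 0 := by
    rintro s (rfl | rfl) <;> norm_num
  have hinj : Set.InjOn f (D : Set ((_ : ℕ) × ℕ × (ℝ × ℝ))) := by
    rintro ⟨j, i, s, t⟩ hq ⟨j', i', s', t'⟩ hq' heq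
    obtain ⟨a1, a2, a3, a4⟩ := hmem _ (Finset.mem_coe.1 hq)
    obtain ⟨b1, b2, b3, b4⟩ := hmem _ (Finset.mem_coe.1 hq')
    simp only at a1 a2 a3 a4 b1 b2 b3 b4
    simp only [hf] at heq
    have hc : ∀ k < r, (if k = i then s else 0) + (if k = j then t else 0) =
        (if k = i' then s' else 0) + (if k = j' then t' else 0) := by
      intro k hk
      have h1 := F.coord hu (i := i) (j := j) (by omega) a1 hk s t
      have h2 := F.coord hu (i := i') (j := j') (by omega) b1 hk s' t'
      rw [heq, h2] at h1
      exact (mul_right_cancel₀ hl.ne' h1).symm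
    have ci := hc i (by omega)
    have cj := hc j a1
    have ci' := hc i' (by omega)
    have cj' := hc j' b1
    have n1 := hne s a3
    have n2 := hne t a4
    have n3 := hne s' b3
    have n4 := hne t' b4
    rw [if_pos rfl, if_neg (by omega), add_zero] at ci
    rw [if_neg (by omega), if_pos rfl, zero_add] at cj
    rw [if_pos (rfl : i' = i'), if_neg (by omega : ¬ i' = j'), add_zero] at ci'
    rw [if_neg (by omega : ¬ j' = i'), if_pos (rfl : j' = j'), zero_add] at cj'
    have hii : i = i' ∨ i = j' := by
      by_contra hcon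
      push Not at hcon
      rw [if_neg hcon.1, if_neg hcon.2, add_zero] at ci
      exact n1 ci
    have hjj : j = i' ∨ j = j' := by
      by_contra hcon
      push Not at hcon
      rw [if_neg hcon.1, if_neg hcon.2, add_zero] at cj
      exact n2 cj
    have e1 : i = i' := by omega
    have e2 : j = j' := by omega
    subst e1
    subst e2
    rw [if_pos rfl, if_neg (by omega), add_zero] at ci
    rw [if_neg (by omega), if_pos rfl, zero_add] at cj
    rw [ci, cj]
  have hB : D.image f ⊆ X := by
    intro x hx
    obtain ⟨q, hq, rfl⟩ := Finset.mem_image.1 hx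
    obtain ⟨a1, a2, a3, a4⟩ := hmem _ hq
    exact hP _ (by omega) _ a1 (by omega) _ _ a3 a4
  have hdis : Disjoint A (D.image f) := by
    rw [Finset.disjoint_left]
    intro x hx hx2
    obtain ⟨q, hq, rfl⟩ := Finset.mem_image.1 hx2
    obtain ⟨a1, a2, a3, a4⟩ := hmem _ hq
    have h1 := hA1 _ hx q.2.1 (by omega) q.1 a1 (by omega)
    simp only [hf] at h1
    rw [F.coord hu (by omega) a1 (by omega), F.coord hu (by omega) a1 a1, if_pos rfl, if_neg (by omega),
      if_neg (by omega), if_pos rfl, add_zero, zero_add] at h1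
    have n1 := hne _ a3
    have n2 := hne _ a4
    exact mul_ne_zero (mul_ne_zero n1 hl.ne') (mul_ne_zero n2 hl.ne') h1
  have h1 := Finset.card_le_card (Finset.union_subset hA hB)
  rw [Finset.card_union_of_disjoint hdis, Finset.card_image_of_injOn hinj, hDc] at h1
  exact h1

/-- the sign changes -/
theorem signs (hS : Sat Φ X) {x : E} (hx : x ∈ X) (n : ℕ → ℤ) (hn : ∀ i < r, 2 * (inner ℝ x (e i) : ℝ) = n i * l)
    (S : Finset ℕ) : x - ∑ i ∈ Finset.range r, (((if i ∈ S then n i else 0 : ℤ)) : ℝ) • e i ∈ X := by
  have hl := F.lpos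
  refine F.shift hS hx (fun i => if i ∈ S then n i else 0) ?_ r le_rfl
  intro i hi
  have h1 := hn i hi
  by_cases h : i ∈ S
  · simp only [h, if_true]
    rcases le_total 0 (n i) with h2 | h2
    · left
      exact ⟨h2, by rw [h1]⟩
    · right
      exact ⟨h2, by rw [h1]⟩
  · simp only [h, if_false]
    rcases le_total 0 (n i) with h2 | h2
    · left
      have h' : (0 : ℝ) ≤ n i := by exact_mod_cast h2
      refine ⟨le_rfl, ?_⟩
      rw [h1]
      push_cast
      nlinarith
    · right
      have h' : (n i : ℝ) ≤ 0 := by exact_mod_cast h2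
      refine ⟨le_rfl, ?_⟩
      rw [h1]
      push_cast
      nlinarith

/-- the coordinates after the sign changes -/
theorem signs_coord {x : E} (n : ℕ → ℤ) (hn : ∀ i < r, 2 * (inner ℝ x (e i) : ℝ) = n i * l) (S : Finset ℕ) {i : ℕ}
    (hi : i < r) : 2 * (inner ℝ (x - ∑ j ∈ Finset.range r, (((if j ∈ S then n j else 0 : ℤ)) : ℝ) • e j) (e i) : ℝ) =
      (if i ∈ S then -(n i : ℝ) else n i) * l := by
  rw [inner_sub_left, F.inner_sum hi (fun j => (((if j ∈ S then n j else 0 : ℤ)) : ℝ)), mul_sub, hn i hi]
  by_cases h : i ∈ S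
  · simp only [h, if_true]
    ring
  · simp only [h, if_false]
    push_cast
    ring

end FB

variable {ℓ : E →ₗ[ℝ] ℝ} {c : ℝ} {p : ℕ} {ν : ℕ → E}

/-- the weights of the two extreme levels -/
theorem Ep.ends (C : Ep Φ X ℓ c p ν) : ∃ A : Finset E, A ⊆ X ∧ A.card = 2 * p ∧
    ∀ x ∈ A, ∃ i < p, x = ν i ∨ x = -ν i := by
  classical
  have hc := C.cpos
  refine ⟨(Finset.range p).image ν ∪ (Finset.range p).image (fun i => -ν i), ?_, ?_, ?_⟩
  · intro x hx
    rcases Finset.mem_union.1 hx with h | h
    · obtain ⟨i, hi, rfl⟩ := Finset.mem_image.1 h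
      exact (C.mem (Finset.mem_range.1 hi)).1
    · obtain ⟨i, hi, rfl⟩ := Finset.mem_image.1 h
      exact C.negX (C.mem (Finset.mem_range.1 hi)).1
  · rw [Finset.card_union_of_disjoint, Finset.card_image_of_injOn, Finset.card_image_of_injOn, Finset.card_range]
    · ring
    · intro i hi j hj hij
      exact C.inj i (Finset.mem_range.1 (Finset.mem_coe.1 hi)) j (Finset.mem_range.1 (Finset.mem_coe.1 hj)) (neg_injective hij)
    · intro i hi j hj hij
      exact C.inj i (Finset.mem_range.1 (Finset.mem_coe.1 hi)) j (Finset.mem_range.1 (Finset.mem_coe.1 hj)) hij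
    · rw [Finset.disjoint_left]
      intro x h1 h2
      obtain ⟨i, hi, rfl⟩ := Finset.mem_image.1 h1
      obtain ⟨j, hj, h3⟩ := Finset.mem_image.1 h2
      have h4 := (C.mem (Finset.mem_range.1 hi)).2
      have h5 := (C.mem (Finset.mem_range.1 hj)).2
      have h6 := congrArg ℓ h3
      simp only [map_neg] at h6
      linarith
  · intro x hx
    rcases Finset.mem_union.1 hx with h | h
    · obtain ⟨i, hi, rfl⟩ := Finset.mem_image.1 h
      exact ⟨i, Finset.mem_range.1 hi, Or.inl rfl⟩
    · obtain ⟨i, hi, rfl⟩ := Finset.mem_image.1 h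
      exact ⟨i, Finset.mem_range.1 hi, Or.inr rfl⟩

theorem Ep.not_B (C : Ep Φ X ℓ c p ν) : ¬ IsB Φ p ν := by
  classical
  rintro ⟨r, τ, e, l, h2r, hp, hl, horth, hτe, hroot, hsum, hν1, hνr, hν2⟩
  have F : FB Φ r e l := ⟨h2r, hl, horth, fun i hi => (hroot i hi).1, fun i hi j hj hij => (hsum i hi j hj hij).2.1⟩
  have hsmall := C.small
  -- levels
  have hτX : τ ∈ X ∧ ℓ τ = c := by
    rw [← hνr]
    exact C.mem (by omega)
  have hℓe : ∀ i < r, ℓ (e i) = 0 := by
    intro i hi
    have h1 := (C.mem (i := i) (by omega)).2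
    rw [hν1 i hi, map_add, hτX.2] at h1
    linarith
  obtain ⟨g, hg, hg0, hgn⟩ := C.exists_lev (F.root 0 (by omega)) (hℓe 0 (by omega))
  rw [real_inner_comm] at hgn
  have hτg : ∀ i < r, |(inner ℝ g (e i) : ℝ)| ≤ inner ℝ τ g := by
    intro i hi
    have h1 := C.top_nonneg hg hg0 (i := i) (by omega)
    have h2 := C.top_nonneg hg hg0 (i := 2 * r - i) (by omega)
    rw [hν1 i hi, inner_add_left, real_inner_comm g (e i)] at h1
    rw [hν2 i hi, inner_sub_left, real_inner_comm g (e i)] at h2
    rw [abs_le]
    constructor <;> linarith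
  have hτpos : (0 : ℝ) < inner ℝ τ g := lt_of_lt_of_le (abs_pos.2 hgn) (hτg 0 (by omega))
  -- the ends
  obtain ⟨A, hAX, hAc, hA⟩ := C.ends
  have hA' : ∀ x ∈ A, ∃ k : ℕ → ℤ, (∀ i < r, (inner ℝ x (e i) : ℝ) = k i * l) ∧ ∀ i < r, ∀ j < r, i ≠ j → k i * k j = 0 := by
    have hkey : ∀ i < p, ∃ k : ℕ → ℤ, (∀ j < r, (inner ℝ (ν i) (e j) : ℝ) = k j * l) ∧
        ∀ a < r, ∀ b < r, a ≠ b → k a * k b = 0 := by
      intro i hi
      rcases lt_trichotomy i r with h | h | h
      · refine ⟨fun j => if j = i then 1 else 0, ?_, ?_⟩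
        · intro j hj
          rw [hν1 i h, inner_add_left, hτe j hj, F.orth i h j hj]
          simp only [eq_comm (a := i)]
          split_ifs <;> simp
        · intro a _ b _ hab
          by_cases ha : a = i
          · have : b ≠ i := fun h => hab (by rw [ha, h])
            simp [this]
          · simp [ha]
      · refine ⟨fun _ => 0, ?_, ?_⟩
        · intro j hj
          rw [h, hνr, hτe j hj]
          simp
        · intro a _ b _ _
          simp
      · obtain ⟨i', hi', rfl⟩ : ∃ i' < r, i = 2 * r - i' := ⟨2 * r - i, by omega, by omega⟩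
        refine ⟨fun j => if j = i' then -1 else 0, ?_, ?_⟩
        · intro j hj
          rw [hν2 i' hi', inner_sub_left, hτe j hj, F.orth i' hi' j hj]
          simp only [eq_comm (a := i')]
          split_ifs <;> simp
        · intro a _ b _ hab
          by_cases ha : a = i'
          · have : b ≠ i' := fun h => hab (by rw [ha, h])
            simp [this]
          · simp [ha]
    intro x hx
    obtain ⟨i, hi, h | h⟩ := hA x hx
    · obtain ⟨k, h1, h2⟩ := hkey i hi
      rw [h]
      exact ⟨k, h1, h2⟩
    · obtain ⟨k, h1, h2⟩ := hkey i hi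
      refine ⟨fun j => -k j, ?_, ?_⟩
      · intro j hj
        rw [h, inner_neg_left, h1 j hj]
        push_cast
        ring
      · intro a ha b hb hab
        rw [neg_mul_neg]
        exact h2 a ha b hb hab
  -- integrality
  have hex : ∀ i, ∃ k : ℤ, i < r → co (e i) g = k := by
    intro i
    by_cases hi : i < r
    · obtain ⟨k, hk⟩ := C.rs.int (e i) (F.root i hi) g hg
      exact ⟨k, fun _ => hk⟩
    · exact ⟨0, fun h => absurd h hi⟩
  choose n hn using hex
  have hng : ∀ i < r, 2 * (inner ℝ g (e i) : ℝ) = n i * l := by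
    intro i hi
    rw [← hn i hi]
    exact (F.co_e hi g).symm
  have hn2 : ∀ i < r, -2 ≤ n i ∧ n i ≤ 2 := by
    intro i hi
    have h1 := C.le2 (e i) (F.root i hi) g hg
    have h2 := C.two_le (F.root i hi) hg
    rw [hn i hi] at h1 h2
    exact ⟨by exact_mod_cast h2, by exact_mod_cast h1⟩
  have hpar : ∀ i < r, i ≠ 0 → ∃ m : ℤ, n i - n 0 = 2 * m := by
    intro i hi hi0
    obtain ⟨m, hm⟩ := C.rs.int (e i - e 0) (F.dif i hi 0 (by omega) hi0) g hg
    have h1 := F.co_dif hi (show 0 < r by omega) hi0 g
    rw [hm] at h1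
    have h2 := hng i hi
    have h3 := hng 0 (by omega)
    have h4 : ((n i - n 0 - 2 * m : ℤ) : ℝ) * l = 0 := by
      push_cast
      linarith
    rcases mul_eq_zero.1 h4 with h5 | h5
    · exact ⟨m, by
        have : n i - n 0 - 2 * m = 0 := by exact_mod_cast h5
        omega⟩
    · exact absurd h5 hl.ne'
  have hn0 : n 0 ≠ 0 := by
    intro h
    have h1 := hng 0 (by omega)
    rw [h] at h1
    apply hgn
    push_cast at h1
    linarith
  rcases Int.even_or_odd' (n 0) with ⟨m0, hm0 | hm0⟩
  · -- integral coordinates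
    have hex2 : ∀ i, ∃ k : ℤ, i < r → n i = 2 * k := by
      intro i
      by_cases hi : i < r
      · by_cases hi0 : i = 0
        · rw [hi0]
          exact ⟨m0, fun _ => hm0⟩
        · obtain ⟨m, hm⟩ := hpar i hi hi0
          exact ⟨m + m0, fun _ => by omega⟩
      · exact ⟨0, fun h => absurd h hi⟩
    choose m hm using hex2
    have hmg : ∀ i < r, (inner ℝ g (e i) : ℝ) = m i * l := by
      intro i hi
      have h1 := hng i hi
      rw [hm i hi] at h1
      push_cast at h1
      linarith
    have hm00 : m 0 ≠ 0 := by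
      intro h
      apply hn0
      rw [hm 0 (by omega), h]
      rfl
    obtain ⟨x, hx, k, hk, hk0, hk1⟩ : ∃ x ∈ X, ∃ k : ℕ → ℤ, (∀ i < r, (inner ℝ x (e i) : ℝ) = k i * l) ∧ k 0 ≠ 0 ∧
        k 1 ≠ 0 := by
      by_cases hm1 : m 1 = 0
      · have h1 : (0 : ℝ) < inner ℝ (ν 1) g := by
          rw [hν1 1 (by omega), inner_add_left, real_inner_comm g (e 1), hmg 1 (by omega), hm1]
          push_cast
          linarith
        refine ⟨ν 1 - g, C.sub_mem' hg (C.mem (by omega)).1 h1, fun i => (if i = 1 then 1 else 0) - m i, ?_, ?_, ?_⟩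
        · intro i hi
          rw [hν1 1 (by omega), inner_sub_left, inner_add_left, hτe i hi, F.orth 1 (by omega) i hi, hmg i hi]
          simp only [eq_comm (a := 1)]
          split_ifs <;> push_cast <;> ring
        · simpa using hm00
        · simp [hm1]
      · refine ⟨τ - g, C.sub_mem' hg hτX.1 hτpos, fun i => -m i, ?_, ?_, ?_⟩
        · intro i hi
          rw [inner_sub_left, hτe i hi, hmg i hi]
          push_cast
          ring
        · simpa using hm00
        · simpa using hm1
    obtain ⟨u, hu, hP⟩ := F.pairs C.rs C.sat hx k hk hk0 hk1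
    have h1 := F.card_pairs hu hP hAX (by
      intro x hx i hi j hj hij
      obtain ⟨k, h1, h2⟩ := hA' x hx
      rw [h1 i hi, h1 j hj]
      have h3 := h2 i hi j hj hij
      have h4 : (k i : ℝ) * k j = 0 := by exact_mod_cast h3
      calc (k i : ℝ) * l * (k j * l) = (k i * k j) * (l * l) := by ring
        _ = 0 := by rw [h4, zero_mul])
    rw [hAc, hp] at h1
    rw [hp] at hsmall
    obtain ⟨q, rfl⟩ : ∃ q, r = q + 2 := ⟨r - 2, by omega⟩
    have h2 : q + 2 - 1 = q + 1 := by omega
    rw [h2] at h1
    nlinarith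
  · -- half-integral coordinates
    have hsq : ∀ i < r, n i = 1 ∨ n i = -1 := by
      intro i hi
      have h1 := hn2 i hi
      by_cases hi0 : i = 0
      · rw [hi0] at h1 ⊢
        omega
      · obtain ⟨m, hm⟩ := hpar i hi hi0
        omega
    have hgg := C.pos hg
    have hgl : (inner ℝ g g : ℝ) ≤ l := by
      obtain ⟨k, hk⟩ := C.rs.int g hg (e 0) (F.root 0 (by omega))
      have h1 : co g (e 0) * inner ℝ g g = n 0 * l := by
        rw [← hng 0 (by omega), real_inner_comm (e 0) g]
        unfold co
        field_simp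
      rw [hk] at h1
      have hk0 : k ≠ 0 := by
        intro h
        rw [h] at h1
        push_cast at h1
        have : (n 0 : ℝ) ≠ 0 := by exact_mod_cast hn0
        have h2 : (n 0 : ℝ) * l ≠ 0 := mul_ne_zero this hl.ne'
        exact h2 (by linarith)
      rcases hsq 0 (by omega) with h | h
      · rw [h] at h1
        push_cast at h1
        have h3 : 0 < (k : ℝ) := by
          by_contra h4
          push Not at h4
          nlinarith
        have h4 : 1 ≤ k := by
          have : 0 < k := by exact_mod_cast h3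
          omega
        have h5 : (1 : ℝ) ≤ k := by exact_mod_cast h4
        nlinarith
      · rw [h] at h1
        push_cast at h1
        have h3 : (k : ℝ) < 0 := by
          by_contra h4
          push Not at h4
          nlinarith
        have h4 : k ≤ -1 := by
          have : k < 0 := by exact_mod_cast h3
          omega
        have h5 : (k : ℝ) ≤ -1 := by exact_mod_cast h4
        nlinarith
    -- the part of `g` orthogonal to the frame
    obtain ⟨g', hg'e, hτg', hgg', hg'g'⟩ : ∃ g' : E, (∀ i < r, (inner ℝ g' (e i) : ℝ) = 0) ∧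
        (inner ℝ τ g' : ℝ) = inner ℝ τ g ∧ (inner ℝ g g' : ℝ) = inner ℝ g g - r * l / 4 ∧
        (inner ℝ g' g' : ℝ) = inner ℝ g g - r * l / 4 := by
      have h1 : ∀ i < r, (inner ℝ (g - ∑ j ∈ Finset.range r, ((n j : ℝ) / 2) • e j) (e i) : ℝ) = 0 := by
        intro i hi
        rw [inner_sub_left, F.inner_sum hi (fun j => (n j : ℝ) / 2)]
        have := hng i hi
        linarith
      have h2 : (inner ℝ g (g - ∑ j ∈ Finset.range r, ((n j : ℝ) / 2) • e j) : ℝ) = inner ℝ g g - r * l / 4 := by
        rw [inner_sub_right, inner_sum]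
        have h3 : ∀ j ∈ Finset.range r, (inner ℝ g (((n j : ℝ) / 2) • e j) : ℝ) = l / 4 := by
          intro j hj
          rw [inner_smul_right]
          have h4 := hng j (Finset.mem_range.1 hj)
          have h5 : (n j : ℝ) * n j = 1 := by
            rcases hsq j (Finset.mem_range.1 hj) with h | h <;> rw [h] <;> norm_num
          have h6 : (inner ℝ g (e j) : ℝ) = n j * l / 2 := by linarith
          rw [h6]
          calc (n j : ℝ) / 2 * (n j * l / 2) = (n j * n j) * l / 4 := by ring
            _ = l / 4 := by rw [h5, one_mul]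
        rw [Finset.sum_congr rfl h3, Finset.sum_const, Finset.card_range, nsmul_eq_mul]
        ring
      refine ⟨_, h1, ?_, h2, ?_⟩
      · rw [inner_sub_right, inner_sum, Finset.sum_eq_zero, sub_zero]
        intro j hj
        rw [inner_smul_right, hτe j (Finset.mem_range.1 hj), mul_zero]
      · rw [inner_sub_left, h2, sum_inner, Finset.sum_eq_zero, sub_zero]
        intro j hj
        rw [inner_smul_left, real_inner_comm, h1 j (Finset.mem_range.1 hj), mul_zero]
    have hnn : (0 : ℝ) ≤ inner ℝ g' g' := real_inner_self_nonneg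
    have hr4 : r ≤ 3 := by
      by_contra h
      push Not at h
      have h1 : (4 : ℝ) ≤ r := by exact_mod_cast h
      have h2 : (inner ℝ g' g' : ℝ) ≤ 0 := by
        rw [hg'g']
        nlinarith
      have h3 : g' = 0 := inner_self_eq_zero.1 (le_antisymm h2 hnn)
      rw [h3, inner_zero_right] at hτg'
      linarith
    -- the sign changes of `τ - g`
    have hx : τ - g ∈ X := C.sub_mem' hg hτX.1 hτpos
    have hxn : ∀ i < r, 2 * (inner ℝ (τ - g) (e i) : ℝ) = ((-n i : ℤ) : ℝ) * l := by
      intro i hi
      rw [inner_sub_left, hτe i hi]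
      have := hng i hi
      push_cast
      linarith
    set f : Finset ℕ → E := fun S => τ - g - ∑ i ∈ Finset.range r, (((if i ∈ S then -n i else 0 : ℤ)) : ℝ) • e i with hf
    have hfX : ∀ S, f S ∈ X := fun S => F.signs C.sat hx (fun i => -n i) hxn S
    have hfc : ∀ S, ∀ i < r, 2 * (inner ℝ (f S) (e i) : ℝ) = (if i ∈ S then (n i : ℝ) else -n i) * l := by
      intro S i hi
      have h1 := F.signs_coord (fun i => -n i) hxn S hi
      rw [hf]
      simp only
      rw [h1]
      split_ifs <;> push_cast <;> ring
    have hfinj : Set.InjOn f ((Finset.range r).powerset : Set (Finset ℕ)) := by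
      intro S hS T hT hST
      have hS' := Finset.mem_powerset.1 (Finset.mem_coe.1 hS)
      have hT' := Finset.mem_powerset.1 (Finset.mem_coe.1 hT)
      ext i
      by_cases hi : i < r
      · have h1 := hfc S i hi
        have h2 := hfc T i hi
        rw [hST, h2] at h1
        have h3 := mul_right_cancel₀ hl.ne' h1
        have h4 : (n i : ℝ) ≠ -n i := by
          rcases hsq i hi with h | h <;> rw [h] <;> norm_num
        by_cases a1 : i ∈ S <;> by_cases a2 : i ∈ T
        · simp [a1, a2]
        · rw [if_pos a1, if_neg a2] at h3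
          exact absurd h3.symm h4
        · rw [if_neg a1, if_pos a2] at h3
          exact absurd h3 h4
        · simp [a1, a2]
      · constructor
        · intro h
          exact absurd (Finset.mem_range.1 (hS' h)) hi
        · intro h
          exact absurd (Finset.mem_range.1 (hT' h)) hi
    have hfcard : (((Finset.range r).powerset).image f).card = 2 ^ r := by
      rw [Finset.card_image_of_injOn hfinj, Finset.card_powerset, Finset.card_range]
    have hfcard' : (((Finset.range r).powerset).image (fun S => -f S)).card = 2 ^ r := by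
      rw [Finset.card_image_of_injOn (fun S hS T hT h => hfinj hS hT (neg_injective h)), Finset.card_powerset,
        Finset.card_range]
    have hodd : ∀ S, ∀ k : ℤ, (inner ℝ (f S) (e 0) : ℝ) ≠ k * l := by
      intro S k h
      have h1 := hfc S 0 (by omega)
      rw [h] at h1
      have h2 : (2 * (k : ℝ)) = (if 0 ∈ S then (n 0 : ℝ) else -n 0) := by
        apply mul_right_cancel₀ hl.ne'
        rw [← h1]
        ring
      split_ifs at h2
      · have : 2 * k = n 0 := by exact_mod_cast h2
        omega
      · have : 2 * k = -n 0 := by exact_mod_cast h2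
        omega
    have hd1 : Disjoint A (((Finset.range r).powerset).image f) := by
      rw [Finset.disjoint_left]
      intro x h1 h2
      obtain ⟨k, h3, _⟩ := hA' x h1
      obtain ⟨S, _, rfl⟩ := Finset.mem_image.1 h2
      exact hodd S (k 0) (h3 0 (by omega))
    have hd2 : Disjoint A (((Finset.range r).powerset).image (fun S => -f S)) := by
      rw [Finset.disjoint_left]
      intro x h1 h2
      obtain ⟨k, h3, _⟩ := hA' x h1
      obtain ⟨S, _, rfl⟩ := Finset.mem_image.1 h2
      refine hodd S (-k 0) ?_
      have h4 := h3 0 (by omega)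
      rw [inner_neg_left] at h4
      push_cast
      linarith
    rcases (by omega : r = 2 ∨ r = 3) with h | h
    · have h1 : A ∪ ((Finset.range r).powerset).image f ⊆ X := by
        refine Finset.union_subset hAX ?_
        intro x hx
        obtain ⟨S, _, rfl⟩ := Finset.mem_image.1 hx
        exact hfX S
      have h2 := Finset.card_le_card h1
      rw [Finset.card_union_of_disjoint hd1, hfcard, hAc, hp, h] at h2
      rw [hp, h] at hsmall
      omega
    · have hd3 : Disjoint (((Finset.range r).powerset).image f) (((Finset.range r).powerset).image (fun S => -f S)) := by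
        rw [Finset.disjoint_left]
        intro x h1 h2
        obtain ⟨S, _, h3⟩ := Finset.mem_image.1 h1
        obtain ⟨T, _, h4⟩ := Finset.mem_image.1 h2
        have hin : ∀ S, (inner ℝ (f S) g' : ℝ) = inner ℝ τ g' - inner ℝ g g' := by
          intro S
          rw [hf]
          simp only
          rw [inner_sub_left, inner_sub_left, sum_inner, Finset.sum_eq_zero, sub_zero]
          intro j hj
          rw [inner_smul_left, real_inner_comm, hg'e j (Finset.mem_range.1 hj), mul_zero]
        have h5 := hin S
        have h6 := hin T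
        have h7 : (inner ℝ (f S) g' : ℝ) = -inner ℝ (f T) g' := by
          rw [h3, ← h4, inner_neg_left]
        have h8 := hτg 0 (by omega)
        have h9 : |(inner ℝ g (e 0) : ℝ)| = l / 2 := by
          have h10 := hng 0 (by omega)
          rcases hsq 0 (by omega) with h' | h'
          · rw [h'] at h10
            push_cast at h10
            rw [abs_of_pos (by linarith)]
            linarith
          · rw [h'] at h10
            push_cast at h10
            rw [abs_of_neg (by linarith)]
            linarith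
        rw [h9] at h8
        have h11 : (r : ℝ) = 3 := by rw [h]; norm_num
        rw [h11] at hgg'
        nlinarith
      have h1 : (A ∪ ((Finset.range r).powerset).image f) ∪ ((Finset.range r).powerset).image (fun S => -f S) ⊆ X := by
        refine Finset.union_subset (Finset.union_subset hAX ?_) ?_
        · intro x hx
          obtain ⟨S, _, rfl⟩ := Finset.mem_image.1 hx
          exact hfX S
        · intro x hx
          obtain ⟨S, _, rfl⟩ := Finset.mem_image.1 hx
          exact C.negX (hfX S)
      have h2 := Finset.card_le_card h1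
      rw [Finset.card_union_of_disjoint (Finset.disjoint_union_left.2 ⟨hd2, hd3⟩), Finset.card_union_of_disjoint hd1,
        hfcard, hfcard', hAc, hp, h] at h2
      rw [hp, h] at hsmall
      omega

end EP
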